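import Pool.Agent.Q94.SB.Bound
import Pool.Agent.Q94.SB.Heis

/-!
# Minimal admissible quotients of two-strand surface braid groups

`G_b = 2 ^ (2 b + 1)` for every `b ≥ 2`.

Lower bound: let `r₁ⱼ, t₁ⱼ, r₂ⱼ, t₂ⱼ, z` be the images of the generators in a finite group `G`, `z ≠ 1`.
The centralizers `C_j` of the elements `r₂ₖ, t₂ₖ`, `k ≥ j`, form a chain; `t₁ⱼ` lies in `C_{j+1}` and not
in `E_j`, the centralizer of `r₂ⱼ` in it, and `r₁ⱼ` lies in `E_j` and not in `C_j`. So `|G| ≥ 4^b |C_0|`,
and if `C_0 = 1` and `|G| < 2 · 4^b`, then `|G| = 4^b` (a group with trivial centre: impossible) or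
`|G| = 3 · 2^(2b-1)`, which is excluded by the action of `G` on the elements of order two of the
centre of the kernel of its action on the three cosets of a Sylow `2`-subgroup.

Upper bound: the Heisenberg group over the field with two elements and an invertible `b × b` matrix
`M` such that `M` and its inverse have trace one.
-/

set_option autoImplicit false

namespace Pool.Agent.Results.MP_97f678_al.MinimalOrder

open Pool.Agent.Q94.SB
open scoped commutatorElement

/-- The generators `ρ₁ⱼ, τ₁ⱼ, ρ₂ⱼ, τ₂ⱼ` (`j < b`) and `A₁₂` of the pure braid group. -/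
inductive Gen (b : ℕ) : Type
  | ρ₁ (j : Fin b)
  | τ₁ (j : Fin b)
  | ρ₂ (j : Fin b)
  | τ₂ (j : Fin b)
  | A₁₂

section Words

variable {b : ℕ}

/-- The generator `ρ₁ⱼ` of the free group. -/
def ρ₁ (j : Fin b) : FreeGroup (Gen b) := FreeGroup.of (Gen.ρ₁ j)
/-- The generator `τ₁ⱼ` of the free group. -/
def τ₁ (j : Fin b) : FreeGroup (Gen b) := FreeGroup.of (Gen.τ₁ j)
/-- The generator `ρ₂ⱼ` of the free group. -/
def ρ₂ (j : Fin b) : FreeGroup (Gen b) := FreeGroup.of (Gen.ρ₂ j)
/-- The generator `τ₂ⱼ` of the free group. -/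
def τ₂ (j : Fin b) : FreeGroup (Gen b) := FreeGroup.of (Gen.τ₂ j)
/-- The generator `A₁₂` of the free group. -/
def A₁₂ (b : ℕ) : FreeGroup (Gen b) := FreeGroup.of Gen.A₁₂

/-- The defining relations `u = v` of the pure braid group on two strands of the closed orientable
surface of genus `b` (`⁅x, y⁆ = x y x⁻¹ y⁻¹`; products over `j` in the order `0, 1, …, b - 1`, or in
the opposite order where `reverse` is written). -/
inductive Relation : FreeGroup (Gen b) → FreeGroup (Gen b) → Prop
  /- surface relations -/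
  | S1 : Relation
      (((List.finRange b).reverse.map fun j => ⁅(ρ₁ j)⁻¹, (τ₁ j)⁻¹⁆ * (τ₁ j)⁻¹).prod *
        ((List.finRange b).map fun j => τ₁ j).prod) (A₁₂ b)
  | S2 : Relation
      (((List.finRange b).map fun j => ⁅(ρ₂ j)⁻¹, τ₂ j⁆ * τ₂ j).prod *
        ((List.finRange b).reverse.map fun j => (τ₂ j)⁻¹).prod) (A₁₂ b)⁻¹
  /- action of `ρ₁ⱼ` -/
  | R1 (j k : Fin b) : j < k → Relation ⁅ρ₁ j, ρ₂ k⁆ 1
  | R2 (j : Fin b) : Relation ⁅ρ₁ j, ρ₂ j⁆ 1
  | R3 (j k : Fin b) : k < j →
      Relation ⁅ρ₁ j, ρ₂ k⁆ ((A₁₂ b)⁻¹ * ρ₂ k * (ρ₂ j)⁻¹ * A₁₂ b * ρ₂ j * (ρ₂ k)⁻¹)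
  | R4 (j k : Fin b) : j < k → Relation ⁅ρ₁ j, τ₂ k⁆ 1
  | R5 (j : Fin b) : Relation ⁅ρ₁ j, τ₂ j⁆ (A₁₂ b)⁻¹
  | R6 (j k : Fin b) : k < j → Relation ⁅ρ₁ j, τ₂ k⁆ ⁅(A₁₂ b)⁻¹, τ₂ k⁆
  | R7 (j : Fin b) : Relation ⁅ρ₁ j, A₁₂ b⁆ ⁅(ρ₂ j)⁻¹, A₁₂ b⁆
  /- action of `τ₁ⱼ` -/
  | T1 (j k : Fin b) : j < k → Relation ⁅τ₁ j, ρ₂ k⁆ 1
  | T2 (j : Fin b) : Relation ⁅τ₁ j, ρ₂ j⁆ ((τ₂ j)⁻¹ * A₁₂ b * τ₂ j)
  | T3 (j k : Fin b) : k < j → Relation ⁅τ₁ j, ρ₂ k⁆ ⁅(τ₂ j)⁻¹, A₁₂ b⁆
  | T4 (j k : Fin b) : j < k → Relation ⁅τ₁ j, τ₂ k⁆ 1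
  | T5 (j : Fin b) : Relation ⁅τ₁ j, τ₂ j⁆ ⁅(τ₂ j)⁻¹, A₁₂ b⁆
  | T6 (j k : Fin b) : k < j → Relation ⁅τ₁ j, τ₂ k⁆
      ((τ₂ j)⁻¹ * A₁₂ b * τ₂ j * (A₁₂ b)⁻¹ * τ₂ k * A₁₂ b * (τ₂ j)⁻¹ * (A₁₂ b)⁻¹ * τ₂ j * (τ₂ k)⁻¹)
  | T7 (j : Fin b) : Relation ⁅τ₁ j, A₁₂ b⁆ ⁅(τ₂ j)⁻¹, A₁₂ b⁆

end Words

/-- The relators `u v⁻¹`. -/
def relators (b : ℕ) : Set (FreeGroup (Gen b)) := {w | ∃ u v, Relation u v ∧ w = u * v⁻¹}

/-- The pure braid group `P₂(Σ_b)`. -/
abbrev P₂ (b : ℕ) : Type := PresentedGroup (relators b)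

/-- `G` is an admissible quotient of `P₂(Σ_b)`: there is a surjective homomorphism onto `G` for
which the image of `A₁₂` is not trivial. -/
def IsAdmissible (b : ℕ) (G : Type) [Group G] : Prop :=
  ∃ φ : P₂ b →* G, Function.Surjective φ ∧ φ (PresentedGroup.of Gen.A₁₂) ≠ 1

section Lower

variable {b : ℕ} {G : Type} [Group G]

lemma rel_of_hom (φ : P₂ b →* G) {u v : FreeGroup (Gen b)} (h : Relation u v) :
    φ (PresentedGroup.mk (relators b) u) = φ (PresentedGroup.mk (relators b) v) := by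
  have h1 : PresentedGroup.mk (relators b) (u * v⁻¹) = 1 :=
    PresentedGroup.one_of_mem ⟨u, v, h, rfl⟩
  rw [map_mul, map_inv, mul_inv_eq_one] at h1
  rw [h1]

/-- the tuple of an admissible quotient -/
def tup (hb : 2 ≤ b) (φ : P₂ b →* G) (hφ : Function.Surjective φ) : Tup b G where
  a := fun j => φ (PresentedGroup.mk (relators b) (ρ₁ j))
  t := fun j => φ (PresentedGroup.mk (relators b) (τ₁ j))
  c := fun j => φ (PresentedGroup.mk (relators b) (ρ₂ j))
  d := fun j => φ (PresentedGroup.mk (relators b) (τ₂ j))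
  z := φ (PresentedGroup.mk (relators b) (A₁₂ b))
  ac := fun j k h => by
    have := rel_of_hom φ (Relation.R1 j k h)
    simpa only [map_commutatorElement, map_one] using this
  ac0 := fun j => by
    have := rel_of_hom φ (Relation.R2 j)
    simpa only [map_commutatorElement, map_one] using this
  ac' := fun j k h => by
    have := rel_of_hom φ (Relation.R3 j k h)
    simpa only [map_commutatorElement, map_mul, map_inv] using this
  ad := fun j k h => by
    have := rel_of_hom φ (Relation.R4 j k h)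
    simpa only [map_commutatorElement, map_one] using this
  ad0 := fun j => by
    have := rel_of_hom φ (Relation.R5 j)
    simpa only [map_commutatorElement, map_inv] using this
  ad' := fun j k h => by
    have := rel_of_hom φ (Relation.R6 j k h)
    simpa only [map_commutatorElement, map_inv] using this
  az := fun j => by
    have := rel_of_hom φ (Relation.R7 j)
    simpa only [map_commutatorElement, map_inv] using this
  tc := fun j k h => by
    have := rel_of_hom φ (Relation.T1 j k h)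
    simpa only [map_commutatorElement, map_one] using this
  tc0 := fun j => by
    have := rel_of_hom φ (Relation.T2 j)
    simpa only [map_commutatorElement, map_mul, map_inv] using this
  tc' := fun j k h => by
    have := rel_of_hom φ (Relation.T3 j k h)
    simpa only [map_commutatorElement, map_inv] using this
  td := fun j k h => by
    have := rel_of_hom φ (Relation.T4 j k h)
    simpa only [map_commutatorElement, map_one] using this
  td0 := fun j => by
    have := rel_of_hom φ (Relation.T5 j)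
    simpa only [map_commutatorElement, map_inv] using this
  td' := fun j k h => by
    have := rel_of_hom φ (Relation.T6 j k h)
    simpa only [map_commutatorElement, map_mul, map_inv] using this
  tz := fun j => by
    have := rel_of_hom φ (Relation.T7 j)
    simpa only [map_commutatorElement, map_inv] using this
  gen := by
    set K : Subgroup G := Subgroup.closure
      (Set.range (fun j => φ (PresentedGroup.mk (relators b) (ρ₁ j))) ∪
        Set.range (fun j => φ (PresentedGroup.mk (relators b) (τ₁ j))) ∪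
        Set.range (fun j => φ (PresentedGroup.mk (relators b) (ρ₂ j))) ∪
        Set.range (fun j => φ (PresentedGroup.mk (relators b) (τ₂ j)))) with hK
    have h1 : ∀ j, φ (PresentedGroup.mk (relators b) (ρ₁ j)) ∈ K := fun j =>
      Subgroup.subset_closure (Or.inl (Or.inl (Or.inl ⟨j, rfl⟩)))
    have h2 : ∀ j, φ (PresentedGroup.mk (relators b) (τ₁ j)) ∈ K := fun j =>
      Subgroup.subset_closure (Or.inl (Or.inl (Or.inr ⟨j, rfl⟩)))
    have h3 : ∀ j, φ (PresentedGroup.mk (relators b) (ρ₂ j)) ∈ K := fun j =>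
      Subgroup.subset_closure (Or.inl (Or.inr ⟨j, rfl⟩))
    have h4 : ∀ j, φ (PresentedGroup.mk (relators b) (τ₂ j)) ∈ K := fun j =>
      Subgroup.subset_closure (Or.inr ⟨j, rfl⟩)
    have h5 : φ (PresentedGroup.mk (relators b) (A₁₂ b)) ∈ K := by
      have h := rel_of_hom φ (Relation.R5 (⟨0, by omega⟩ : Fin b))
      rw [map_commutatorElement, map_commutatorElement, map_inv, map_inv] at h
      have h6 : (φ (PresentedGroup.mk (relators b) (A₁₂ b)))⁻¹ ∈ K := by
        rw [← h, commutatorElement_def]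
        exact K.mul_mem (K.mul_mem (K.mul_mem (h1 _) (h4 _)) (K.inv_mem (h1 _)))
          (K.inv_mem (h4 _))
      exact K.inv_mem_iff.1 h6
    have hle : Subgroup.closure (Set.range (PresentedGroup.of (rels := relators b))) ≤
        K.comap φ := by
      rw [Subgroup.closure_le]
      rintro _ ⟨x, rfl⟩
      rcases x with j | j | j | j | _
      · exact h1 j
      · exact h2 j
      · exact h3 j
      · exact h4 j
      · exact h5
    rw [PresentedGroup.closure_range_of] at hle
    rw [eq_top_iff]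
    intro g _
    obtain ⟨x, rfl⟩ := hφ g
    exact hle (Subgroup.mem_top x)

end Lower

section Upper

open Matrix

variable {b : ℕ}

/-- the images of the generators in the Heisenberg group -/
def img (M N : Matrix (Fin b) (Fin b) (ZMod 2)) : Gen b → Heis b
  | .ρ₁ j => E (N j)
  | .τ₁ j => F (Pi.single j 1)
  | .ρ₂ j => E (Pi.single j 1)
  | .τ₂ j => F (fun i => M i j)
  | .A₁₂ => Z 1

lemma Z_one_inv : (Z 1 : Heis b)⁻¹ = Z 1 := by
  rw [Z_inv]; congr 1

lemma conj_Z (s : ZMod 2) (g : Heis b) : g⁻¹ * Z s * g = Z s := by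
  rw [mul_assoc, Z_comm, ← mul_assoc, inv_mul_cancel, one_mul]

lemma comm_Z (s : ZMod 2) (g : Heis b) : ⁅g, (Z s : Heis b)⁆ = 1 := by
  rw [commutatorElement_eq_one_iff_mul_comm, Z_comm]

lemma comm_Z' (s : ZMod 2) (g : Heis b) : ⁅(Z s : Heis b), g⁆ = 1 := by
  rw [commutatorElement_eq_one_iff_mul_comm, Z_comm]

lemma lift_rel (M N : Matrix (Fin b) (Fin b) (ZMod 2)) (hNM : N * M = 1) (hM : M.trace = 1)
    (hN : N.trace = 1) {u v : FreeGroup (Gen b)} (h : Relation u v) :
    FreeGroup.lift (img M N) u = FreeGroup.lift (img M N) v := by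
  have hr1 : ∀ j, FreeGroup.lift (img M N) (ρ₁ j) = E (N j) := fun j => FreeGroup.lift_apply_of
  have ht1 : ∀ j, FreeGroup.lift (img M N) (τ₁ j) = F (Pi.single j 1) :=
    fun j => FreeGroup.lift_apply_of
  have hr2 : ∀ j, FreeGroup.lift (img M N) (ρ₂ j) = E (Pi.single j 1) :=
    fun j => FreeGroup.lift_apply_of
  have ht2 : ∀ j, FreeGroup.lift (img M N) (τ₂ j) = F (fun i => M i j) :=
    fun j => FreeGroup.lift_apply_of
  have hA : FreeGroup.lift (img M N) (A₁₂ b) = Z 1 := FreeGroup.lift_apply_of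
  have hnm : ∀ j k, N j ⬝ᵥ (fun i => M i k) = if j = k then 1 else 0 := by
    intro j k
    have := congrFun (congrFun hNM j) k
    rw [Matrix.mul_apply'] at this
    rw [this, Matrix.one_apply]
  induction h with
  | S1 =>
    rw [map_mul, map_list_prod, map_list_prod, List.map_map, List.map_map, hA]
    have h1 : (FreeGroup.lift (img M N) ∘ fun j => ⁅(ρ₁ j)⁻¹, (τ₁ j)⁻¹⁆ * (τ₁ j)⁻¹) =
        fun j => Z (N j j) * (F (Pi.single j 1) : Heis b)⁻¹ := by
      funext j
      simp only [Function.comp_apply, map_mul, map_commutatorElement, map_inv, hr1, ht1]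
      rw [comm_eq]
      simp
    have h2 : (FreeGroup.lift (img M N) ∘ fun j => τ₁ j) =
        fun j => (F (Pi.single j 1) : Heis b) := by
      funext j
      simp only [Function.comp_apply, ht1]
    rw [h1, h2, prod_Z, List.map_reverse, List.sum_reverse, ← Fin.sum_univ_def]
    have h3 : (List.map (fun j => (F (Pi.single j 1) : Heis b)⁻¹) (List.finRange b).reverse).prod =
        ((List.finRange b).map fun j => (F (Pi.single j 1) : Heis b)).prod⁻¹ := by
      rw [List.prod_inv_reverse, List.map_map, ← List.map_reverse]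
      rfl
    rw [h3, inv_mul_cancel_right]
    exact congrArg Z hN
  | S2 =>
    rw [map_mul, map_list_prod, map_list_prod, List.map_map, List.map_map, map_inv, hA]
    have h1 : (FreeGroup.lift (img M N) ∘ fun j => ⁅(ρ₂ j)⁻¹, τ₂ j⁆ * τ₂ j) =
        fun j => Z (M j j) * (F (fun i => M i j) : Heis b) := by
      funext j
      simp only [Function.comp_apply, map_mul, map_commutatorElement, map_inv, hr2, ht2]
      rw [comm_eq]
      simp
    have h2 : (FreeGroup.lift (img M N) ∘ fun j => (τ₂ j)⁻¹) =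
        fun j => (F (fun i => M i j) : Heis b)⁻¹ := by
      funext j
      simp only [Function.comp_apply, map_inv, ht2]
    rw [h1, h2, prod_Z, ← Fin.sum_univ_def]
    have h3 : (List.map (fun j => (F (fun i => M i j) : Heis b)⁻¹) (List.finRange b).reverse).prod =
        ((List.finRange b).map fun j => (F (fun i => M i j) : Heis b)).prod⁻¹ := by
      rw [List.prod_inv_reverse, List.map_map, ← List.map_reverse]
      rfl
    rw [h3, mul_inv_cancel_right, Z_one_inv]
    exact congrArg Z hM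
  | R1 j k h =>
    rw [map_commutatorElement, map_one, hr1, hr2, comm_eq]; simp [Z_zero]
  | R2 j =>
    rw [map_commutatorElement, map_one, hr1, hr2, comm_eq]; simp [Z_zero]
  | R3 j k h =>
    simp only [map_commutatorElement, map_mul, map_inv, hr1, hr2, hA]
    rw [comm_eq]
    have := conj_Z 1 (E (Pi.single j 1) : Heis b)
    calc (Z _ : Heis b) = 1 := by simp [Z_zero]
      _ = (Z 1)⁻¹ * E (Pi.single k 1) * ((E (Pi.single j 1))⁻¹ * Z 1 * E (Pi.single j 1)) *
          (E (Pi.single k 1))⁻¹ := by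
        rw [this, mul_assoc _ _ (Z 1), ← Z_comm]; group
      _ = _ := by group
  | R4 j k h =>
    rw [map_commutatorElement, map_one, hr1, ht2, comm_eq]
    simp [hnm, ne_of_lt h, Z_zero]
  | R5 j =>
    rw [map_commutatorElement, map_inv, hr1, ht2, hA, comm_eq, Z_one_inv]
    simp [hnm]
  | R6 j k h =>
    rw [map_commutatorElement, map_commutatorElement, map_inv, hr1, ht2, hA, comm_eq, Z_one_inv,
      comm_Z']
    simp [hnm, (ne_of_lt h).symm, Z_zero]
  | R7 j =>
    rw [map_commutatorElement, map_commutatorElement, hA, comm_Z, comm_Z]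
  | T1 j k h =>
    rw [map_commutatorElement, map_one, ht1, hr2, comm_eq]
    simp [ne_of_lt h, Z_zero]
  | T2 j =>
    simp only [map_commutatorElement, map_mul, map_inv, ht1, hr2, ht2, hA]
    rw [comm_eq, conj_Z]
    simp
  | T3 j k h =>
    rw [map_commutatorElement, map_commutatorElement, ht1, hr2, hA, comm_Z, comm_eq]
    simp [(ne_of_lt h).symm, Z_zero]
  | T4 j k h =>
    rw [map_commutatorElement, map_one, ht1, ht2, comm_eq]; simp [Z_zero]
  | T5 j =>
    rw [map_commutatorElement, map_commutatorElement, ht1, ht2, hA, comm_Z, comm_eq]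
    simp [Z_zero]
  | T6 j k h =>
    simp only [map_commutatorElement, map_mul, map_inv, ht1, ht2, hA]
    rw [comm_eq]
    have h1 := conj_Z 1 (F (fun i => M i j) : Heis b)
    have h2 : ∀ g : Heis b, Z 1 * g = g * Z 1 := Z_comm 1
    calc (Z _ : Heis b) = 1 := by simp [Z_zero]
      _ = ((F (fun i => M i j))⁻¹ * Z 1 * F (fun i => M i j)) * (Z 1)⁻¹ * (F (fun i => M i k)) *
          ((F (fun i => M i j))⁻¹ * Z 1 * F (fun i => M i j))⁻¹ * Z 1 * (F (fun i => M i k))⁻¹ := by
        rw [h1]; group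
      _ = ((F (fun i => M i j))⁻¹ * Z 1 * F (fun i => M i j)) * (Z 1)⁻¹ * (F (fun i => M i k)) *
          (Z 1 * ((F (fun i => M i j))⁻¹ * Z 1 * F (fun i => M i j))⁻¹) *
          (F (fun i => M i k))⁻¹ := by
        rw [h2]; group
      _ = _ := by group
  | T7 j =>
    rw [map_commutatorElement, map_commutatorElement, hA, comm_Z, comm_Z]

end Upper

/-- For every `b ≥ 2` the least order of an admissible quotient of `P₂(Σ_b)` is `2 ^ (2 b + 1)`. -/
theorem result (b : ℕ) (hb : 2 ≤ b) :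
    IsLeast {n : ℕ | ∃ (G : Type) (_ : Group G) (_ : Finite G), IsAdmissible b G ∧
      Nat.card G = n} (2 ^ (2 * b + 1)) := by
  have h24 : 2 * 4 ^ b = 2 ^ (2 * b + 1) := by
    rw [pow_succ, pow_mul]; norm_num [mul_comm]
  have hlow : ∀ (G : Type) [Group G] [Finite G], IsAdmissible b G →
      2 ^ (2 * b + 1) ≤ Nat.card G := by
    intro G _ _ hG
    obtain ⟨φ, hφ, hz⟩ := hG
    rw [← h24]
    exact lower hb (Nat.card G) G (tup hb φ hφ) rfl hz
  constructor
  · obtain ⟨M, N, hNM, hM, hN⟩ := exists_matrix hb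
    let φ : P₂ b →* Heis b := PresentedGroup.toGroup (f := img M N) (by
      rintro _ ⟨u, v, h, rfl⟩
      rw [map_mul, map_inv, lift_rel M N hNM hM hN h, mul_inv_cancel])
    have hA : φ (PresentedGroup.of Gen.A₁₂) = Z 1 := PresentedGroup.toGroup.of _
    have hadm : IsAdmissible b φ.range := by
      refine ⟨φ.rangeRestrict, φ.rangeRestrict_surjective, ?_⟩
      intro h
      have h1 : φ (PresentedGroup.of Gen.A₁₂) = 1 := congrArg (fun x : φ.range => (x : Heis b)) h
      rw [hA] at h1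
      have h2 : (1 : ZMod 2) = 0 := congrArg Heis.s h1
      exact absurd h2 (by decide)
    refine ⟨φ.range, inferInstance, inferInstance, hadm, ?_⟩
    have h1 := hlow φ.range hadm
    have h2 : Nat.card φ.range ≤ Nat.card (Heis b) :=
      Nat.card_le_card_of_injective _ Subtype.val_injective
    rw [card_heis] at h2
    omega
  · rintro n ⟨G, _, _, hG, rfl⟩
    exact hlow G hG

end Pool.Agent.Results.MP_97f678_al.MinimalOrder
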